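import Mathlib
import Pool.Agent.Lib.helper23.LiftD

set_option autoImplicit false

namespace Pool.Agent.Results.MP_2695c4_gt.Main

open Filter NNReal

universe u

/-- uniformly locally finite -/
def ULF (X : Type) [MetricSpace X] : Prop :=
  ∀ r : ℝ, 0 < r → ∃ N : ℕ, ∀ x : X, (Metric.closedBall x r).encard ≤ N

/-- coarse embeddability of `X` into `H` -/
def Emb (X : Type) [MetricSpace X] (H : Type u) [NormedAddCommGroup H] : Prop :=
  ∃ (g : X → H) (ρ₁ ρ₂ : ℝ≥0 → ℝ≥0), Tendsto ρ₁ atTop atTop ∧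
    ∀ x y, ρ₁ (nndist x y) ≤ ‖g x - g y‖₊ ∧ ‖g x - g y‖₊ ≤ ρ₂ (nndist x y)

theorem result : ∃ (X Y : Type) (_ : MetricSpace X) (_ : MetricSpace Y) (f : X → Y),
    ULF X ∧ ULF Y ∧
    (∀ r : ℝ, 0 < r → ∃ s : ℝ, 0 < s ∧ ∀ x x', dist x x' ≤ r → dist (f x) (f x') ≤ s) ∧
    (∃ N : ℕ, ∀ y, (f ⁻¹' {y}).encard ≤ N) ∧
    (∃ (H : Type) (_ : NormedAddCommGroup H) (_ : InnerProductSpace ℝ H),
      CompleteSpace H ∧ Emb Y H) ∧
    ∀ (H : Type u) [NormedAddCommGroup H] [InnerProductSpace ℝ H], ¬ Emb X H := by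
  obtain ⟨X, I, m, g, h1, h2, h3⟩ := Pool.Agent.Lib.helper23.LiftD.main.{u}
  refine ⟨X, Set.range g, m, inferInstance, Set.rangeFactorization g, fun r _ => ?_,
    fun r _ => ?_, fun r _ => h1 r, ?_, ⟨lp (fun _ : I => ℝ) 2, inferInstance, inferInstance,
      inferInstance, Subtype.val, id, id, tendsto_id, fun x y => ?_⟩, ?_⟩
  · obtain ⟨s, -, hs⟩ := h1 r
    obtain ⟨N, hN⟩ := h2 s
    exact ⟨N, fun x => (Set.encard_le_encard fun y hy => hs y x hy).trans (hN x)⟩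
  · obtain ⟨N, hN⟩ := h2 r
    refine ⟨N, ?_⟩
    rintro ⟨_, x, rfl⟩
    refine le_trans (Set.encard_le_encard ?_)
      ((Set.encard_image_le (Set.rangeFactorization g) _).trans (hN x))
    rintro ⟨_, y, rfl⟩ hy
    exact ⟨y, hy, rfl⟩
  · obtain ⟨N, hN⟩ := h2 0
    refine ⟨N, ?_⟩
    rintro ⟨_, x, rfl⟩
    refine (Set.encard_le_encard fun y hy => ?_).trans (hN x)
    exact (dist_eq_zero.2 (congrArg Subtype.val hy)).le
  · rw [← nndist_eq_nnnorm]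
    exact ⟨le_rfl, le_rfl⟩
  · rintro H _ _ ⟨f, ρ₁, ρ₂, hρ, hf⟩
    obtain ⟨t, ht⟩ := eventually_atTop.1 (hρ.eventually (eventually_gt_atTop (320 * ρ₂ 1)))
    obtain ⟨x, y, a, b⟩ := h3 H f (ρ₂ 1) (fun x y h => by
      have := (hf x y).2
      rw [show nndist x y = 1 from NNReal.eq h] at this
      exact_mod_cast this) ⌈(t : ℝ)⌉₊
    have c := (ht (nndist x y) (by exact_mod_cast (Nat.le_ceil (t : ℝ)).trans a)).trans_le
      (hf x y).1
    rw [max_eq_left (NNReal.coe_nonneg (ρ₂ 1))] at b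
    exact absurd b (not_le.2 (by exact_mod_cast c))

end Pool.Agent.Results.MP_2695c4_gt.Main
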